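import Mathlib

/-! Endomorphisms of finite order: eigenvalues, characteristic polynomial, and power sums. -/

set_option autoImplicit false

namespace Pool.Agent.Q286.RL

open Polynomial Module

theorem semisimple_of_pow {V : Type*} [AddCommGroup V] [Module ℂ V] [FiniteDimensional ℂ V]
    (A : Module.End ℂ V) {m : ℕ} (hm : 0 < m) (hA : A ^ m = 1) : A.IsSemisimple := by
  refine Module.End.isSemisimple_of_squarefree_aeval_eq_zero (p := X ^ m - 1) ?_ ?_
  · exact (Polynomial.X_pow_sub_one_separable_iff.2 (by exact_mod_cast hm.ne')).squarefree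
  · simp [hA]

theorem iSup_eigen {V : Type*} [AddCommGroup V] [Module ℂ V] [FiniteDimensional ℂ V]
    (A : Module.End ℂ V) {m : ℕ} (hm : 0 < m) (hA : A ^ m = 1) :
    ⨆ μ : ℂ, A.eigenspace μ = ⊤ := by
  have h1 := Module.End.iSup_maxGenEigenspace_eq_top A
  have h2 : A.IsFinitelySemisimple := (semisimple_of_pow A hm hA).isFinitelySemisimple
  rw [← h1]
  exact iSup_congr fun μ => (h2.maxGenEigenspace_eq_eigenspace μ).symm

/-- an eigenbasis for an endomorphism of finite order -/
theorem exists_eigbasis {V : Type*} [AddCommGroup V] [Module ℂ V] [FiniteDimensional ℂ V]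
    (A : Module.End ℂ V) {m : ℕ} (hm : 0 < m) (hA : A ^ m = 1) :
    ∃ (e : Basis (Fin (finrank ℂ V)) ℂ V) (l : Fin (finrank ℂ V) → ℂ),
      ∀ i, A (e i) = l i • e i := by
  classical
  have hi : DirectSum.IsInternal fun μ : A.Eigenvalues => A.eigenspace μ := by
    refine (DirectSum.isInternal_submodule_iff_iSupIndep_and_iSup_eq_top _).2 ⟨?_, ?_⟩
    · exact A.eigenspaces_iSupIndep.comp Subtype.val_injective
    · rw [← iSup_eigen A hm hA]
      refine le_antisymm (iSup_le fun μ => le_iSup (fun μ : ℂ => A.eigenspace μ) μ)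
        (iSup_le fun μ => ?_)
      by_cases hμ : A.HasEigenvalue μ
      · exact le_iSup (fun μ : A.Eigenvalues => A.eigenspace μ) ⟨μ, hμ⟩
      · rw [Module.End.hasEigenvalue_iff, not_not] at hμ
        rw [hμ]
        exact bot_le
  set e0 := hi.collectedBasis fun μ : A.Eigenvalues => Module.finBasis ℂ (A.eigenspace (μ : ℂ))
    with he0
  have hcard : Fintype.card ((μ : A.Eigenvalues) × Fin (finrank ℂ (A.eigenspace (μ : ℂ)))) =
      finrank ℂ V := (Module.finrank_eq_card_basis e0).symm
  set eq := Fintype.equivFinOfCardEq hcard with heq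
  refine ⟨e0.reindex eq, fun i => ((eq.symm i).1 : ℂ), fun i => ?_⟩
  rw [Basis.reindex_apply]
  have h1 : e0 (eq.symm i) ∈ A.eigenspace ((eq.symm i).1 : ℂ) :=
    hi.collectedBasis_mem _ _
  exact Module.End.mem_eigenspace_iff.1 h1

theorem pow_eigen {V : Type*} [AddCommGroup V] [Module ℂ V] (A : Module.End ℂ V) {x : V} {l : ℂ}
    (h : A x = l • x) (k : ℕ) : (A ^ k) x = l ^ k • x := by
  induction k with
  | zero => simp
  | succ k ih => rw [pow_succ', Module.End.mul_apply, ih, map_smul, h, smul_smul, pow_succ]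

/-- the eigenvalues of an endomorphism of finite order -/
theorem exists_eig {V : Type*} [AddCommGroup V] [Module ℂ V] [FiniteDimensional ℂ V]
    (A : Module.End ℂ V) {m : ℕ} (hm : 0 < m) (hA : A ^ m = 1) :
    ∃ l : Fin (finrank ℂ V) → ℂ, (∀ i, ‖l i‖ = 1) ∧
      (∀ c : ℂ, LinearMap.det (1 - c • A) = ∏ i, (1 - c * l i)) ∧
      ∀ k : ℕ, LinearMap.trace ℂ V (A ^ k) = ∑ i, l i ^ k := by
  classical
  obtain ⟨e, l, h⟩ := exists_eigbasis A hm hA
  refine ⟨l, fun i => ?_, fun c => ?_, fun k => ?_⟩
  · have h1 := pow_eigen A (h i) m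
    rw [hA, Module.End.one_apply] at h1
    have h2 : (l i ^ m - 1) • e i = 0 := by rw [sub_smul, one_smul, ← h1, sub_self]
    rcases smul_eq_zero.1 h2 with h3 | h3
    · have h4 : l i ^ m = 1 := by linear_combination h3
      have h5 : ‖l i‖ ^ m = 1 := by rw [← norm_pow, h4, norm_one]
      exact (pow_eq_one_iff_of_nonneg (norm_nonneg _) hm.ne').1 h5
    · exact absurd h3 (e.ne_zero i)
  · have h1 : LinearMap.toMatrix e e (1 - c • A) = Matrix.diagonal fun i => 1 - c * l i := by
      ext i j
      rw [LinearMap.toMatrix_apply]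
      have : (1 - c • A) (e j) = (1 - c * l j) • e j := by
        rw [LinearMap.sub_apply, Module.End.one_apply, LinearMap.smul_apply, h j, smul_smul,
          sub_smul, one_smul]
      rw [this, map_smul, Finsupp.smul_apply, Basis.repr_self, Matrix.diagonal_apply,
        Finsupp.single_apply, smul_eq_mul]
      by_cases hij : i = j
      · subst hij; simp
      · rw [if_neg hij, if_neg (fun h => hij h.symm), mul_zero]
    rw [← LinearMap.det_toMatrix e, h1, Matrix.det_diagonal]
  · have h1 : LinearMap.toMatrix e e (A ^ k) = Matrix.diagonal fun i => l i ^ k := by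
      ext i j
      rw [LinearMap.toMatrix_apply, pow_eigen A (h j) k, map_smul, Finsupp.smul_apply,
        Basis.repr_self, Matrix.diagonal_apply, Finsupp.single_apply, smul_eq_mul]
      by_cases hij : i = j
      · subst hij; simp
      · rw [if_neg hij, if_neg (fun h => hij h.symm), mul_zero]
    rw [LinearMap.trace_eq_matrix_trace ℂ e, h1, Matrix.trace_diagonal]

end Pool.Agent.Q286.RL
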