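import Pool.Agent.Q286.RL.Eul
import Pool.Agent.Q286.RL.Eig
import Pool.Agent.W540.BE.Gen

/-! The rotated law for an Euler product twisted by operators of finite order. -/

set_option autoImplicit false
set_option linter.unusedSectionVars false

namespace Pool.Agent.Q286.RL

open Complex MeasureTheory Filter Topology Set Polynomial
open Pool.Agent.W189.ML Pool.Agent.W189.LC
open Pool.Agent.W540.BE (NormSys)
open scoped Classical

variable {P : Type} {N : P → ℕ} {b n : ℕ}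

/-- the data of a twisted Euler product: `α p j` are numbers of absolute value `N p ^ wt` and `A p` is
an operator of finite order, for all `p` which are good; all but finitely many are -/
structure TD (N : P → ℕ) (wt : ℝ) (α : P → Fin b → ℂ) (A : P → Module.End ℂ (Fin n → ℂ))
    (Good : P → Prop) : Prop where
  sys : NormSys N
  fin : {p | ¬ Good p}.Finite
  ha : ∀ p, Good p → ∀ j, ‖α p j‖ = (N p : ℝ) ^ wt
  hA : ∀ p, Good p → ∃ m : ℕ, 0 < m ∧ A p ^ m = 1

/-- the coefficients `(∑_j α_j^k) tr(A^k) / (k N^{k (wt + 1/2)})`, `k = x.2 + 1` -/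
noncomputable def tc (N : P → ℕ) (wt : ℝ) (α : P → Fin b → ℂ)
    (A : P → Module.End ℂ (Fin n → ℂ)) (Good : P → Prop) (x : P × ℕ) : ℂ :=
  if Good x.1 then (∑ j, α x.1 j ^ (x.2 + 1)) * LinearMap.trace ℂ _ (A x.1 ^ (x.2 + 1)) /
    (((x.2 + 1 : ℕ) : ℂ) * (((N x.1 : ℝ) ^ ((x.2 + 1) * (wt + 1 / 2)) : ℝ) : ℂ)) else 0

/-- the eigenvalues -/
noncomputable def el (A : P → Module.End ℂ (Fin n → ℂ)) (p : P) (i : Fin n) : ℂ :=
  if h : ∃ l : Fin n → ℂ, (∀ i, ‖l i‖ = 1) ∧
      (∀ c : ℂ, LinearMap.det (1 - c • A p) = ∏ i, (1 - c * l i)) ∧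
      ∀ k : ℕ, LinearMap.trace ℂ _ (A p ^ k) = ∑ i, l i ^ k then h.choose i else 0

theorem el_spec (A : P → Module.End ℂ (Fin n → ℂ)) {p : P} (h : ∃ m : ℕ, 0 < m ∧ A p ^ m = 1) :
    (∀ i, ‖el A p i‖ = 1) ∧
      (∀ c : ℂ, LinearMap.det (1 - c • A p) = ∏ i, (1 - c * el A p i)) ∧
      ∀ k : ℕ, LinearMap.trace ℂ _ (A p ^ k) = ∑ i, el A p i ^ k := by
  obtain ⟨m, hm, hA⟩ := h
  have h1 : ∃ l : Fin n → ℂ, (∀ i, ‖l i‖ = 1) ∧
      (∀ c : ℂ, LinearMap.det (1 - c • A p) = ∏ i, (1 - c * l i)) ∧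
      ∀ k : ℕ, LinearMap.trace ℂ _ (A p ^ k) = ∑ i, l i ^ k := by
    have := exists_eig (A p) hm hA
    rwa [Module.finrank_fin_fun] at this
  have h2 : ∀ i, el A p i = h1.choose i := fun i => by
    unfold el
    rw [dif_pos h1]
  simp only [h2]
  exact h1.choose_spec

/-- the normalised eigenvalues -/
noncomputable def tt (N : P → ℕ) (wt : ℝ) (α : P → Fin b → ℂ)
    (A : P → Module.End ℂ (Fin n → ℂ)) (Good : P → Prop) (p : P) (x : Fin b × Fin n) : ℂ :=
  if Good p then α p x.1 * el A p x.2 * (((N p : ℝ) ^ (-(wt + 1 / 2)) : ℝ) : ℂ) else 0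

variable {wt : ℝ} {α : P → Fin b → ℂ} {A : P → Module.End ℂ (Fin n → ℂ)} {Good : P → Prop}

theorem TD.norm_tt (D : TD N wt α A Good) (p : P) (x : Fin b × Fin n) :
    ‖tt N wt α A Good p x‖ ≤ (N p : ℝ) ^ (-(1 / 2) : ℝ) := by
  have h2 : (0 : ℝ) < N p := by
    have := D.sys.two_le p
    have h3 : 0 < N p := by omega
    exact_mod_cast h3
  unfold tt
  split_ifs with h
  · rw [norm_mul, norm_mul, D.ha p h, (el_spec A (D.hA p h)).1, mul_one, Complex.norm_real,
      Real.norm_eq_abs, abs_of_pos (by positivity), ← Real.rpow_add h2]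
    apply le_of_eq
    congr 1
    ring
  · rw [norm_zero]
    positivity

theorem TD.ed (D : TD N wt α A Good) : ED (fun p => (N p : ℝ)) (tt N wt α A Good) where
  two_le := fun v => by exact_mod_cast D.sys.two_le v
  sum := fun σ hσ => D.sys.summable (-σ) (by linarith)
  th_le := fun v j => by
    refine (D.norm_tt v j).trans ?_
    have h2 : (1 : ℝ) ≤ N v := by
      have := D.sys.two_le v
      have h3 : 1 ≤ N v := by omega
      exact_mod_cast h3
    have := Real.rpow_le_one_of_one_le_of_nonpos h2 (by norm_num : (-(1 / 2) : ℝ) ≤ 0)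
    linarith

theorem TD.ec_eq (D : TD N wt α A Good) (x : P × ℕ) :
    ec (tt N wt α A Good) x = tc N wt α A Good x := by
  have h2 : (0 : ℝ) < N x.1 := by
    have := D.sys.two_le x.1
    have h3 : 0 < N x.1 := by omega
    exact_mod_cast h3
  unfold ec tc tt
  split_ifs with h
  · have h3 := (el_spec A (D.hA x.1 h)).2.2 (x.2 + 1)
    rw [h3]
    simp only [mul_pow]
    rw [← Finset.sum_mul, Fintype.sum_prod_type]
    simp only
    rw [← Finset.sum_mul_sum]
    have h4 : (((N x.1 : ℝ) ^ (-(wt + 1 / 2)) : ℝ) : ℂ) ^ (x.2 + 1) =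
        ((((N x.1 : ℝ) ^ ((x.2 + 1) * (wt + 1 / 2)) : ℝ) : ℂ))⁻¹ := by
      rw [← Complex.ofReal_pow, ← Complex.ofReal_inv, ← Real.rpow_natCast, ← Real.rpow_mul h2.le,
        ← Real.rpow_neg h2.le]
      congr 2
      push_cast
      ring
    rw [h4]
    have h5 : ((((N x.1 : ℝ) ^ ((x.2 + 1) * (wt + 1 / 2)) : ℝ) : ℂ)) ≠ 0 := by
      have : (N x.1 : ℝ) ^ ((x.2 + 1) * (wt + 1 / 2)) ≠ 0 := by positivity
      exact_mod_cast this
    have h6 : (((x.2 + 1 : ℕ) : ℂ)) ≠ 0 := by exact_mod_cast Nat.succ_ne_zero x.2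
    field_simp
  · simp

/-- the Euler factor at a good place -/
theorem TD.factor (D : TD N wt α A Good) {p : P} (hp : Good p) (z : ℂ) :
    ∏ j, LinearMap.det (1 - (α p j * z) • A p) = ∏ x : Fin b × Fin n, (1 - α p x.1 * z * el A p x.2) := by
  rw [Fintype.prod_prod_type]
  exact Finset.prod_congr rfl fun j _ => (el_spec A (D.hA p hp)).2.1 _

/-- the finite product of the bad Euler factors -/
noncomputable def bad (D : TD N wt α A Good) (B : P → ℂ[X]) (s : ℂ) : ℂ :=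
  ∏ p ∈ D.fin.toFinset, (B p).eval (((N p : ℕ) : ℂ) ^ (-s))

theorem bad_diff (D : TD N wt α A Good) (B : P → ℂ[X]) : Differentiable ℂ (bad D B) := by
  unfold bad
  refine Differentiable.fun_finsetProd fun p _ => ?_
  have h2 : ((N p : ℕ) : ℂ) ≠ 0 := by
    have := D.sys.two_le p
    have h3 : N p ≠ 0 := by omega
    exact_mod_cast h3
  have h3 : Differentiable ℂ fun s : ℂ => ((N p : ℕ) : ℂ) ^ (-s) := by
    intro s
    exact (differentiableAt_id.neg).const_cpow (Or.inl h2)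
  exact (B p).differentiable.comp h3

/-- the Euler product to the right -/
theorem TD.prod (D : TD N wt α A Good) (B : P → ℂ[X])
    (hB : ∀ p, Good p → ∀ z : ℂ, (B p).eval z = ∏ j, LinearMap.det (1 - (α p j * z) • A p))
    {w : ℂ} (hw : 1 < w.re) :
    HasProd (fun p => ((B p).eval (((N p : ℕ) : ℂ) ^ (-((wt + 1 / 2 : ℝ) + w))))⁻¹)
      ((bad D B ((wt + 1 / 2 : ℝ) + w))⁻¹ *
        exp (cser (fr fun p => (N p : ℝ)) (tc N wt α A Good) w)) := by
  have h1 := D.ed.hasProd hw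
  have hec : ec (tt N wt α A Good) = tc N wt α A Good := funext D.ec_eq
  rw [hec] at h1
  have h2 : HasProd (fun p => if Good p then (1 : ℂ) else
      ((B p).eval (((N p : ℕ) : ℂ) ^ (-((wt + 1 / 2 : ℝ) + w))))⁻¹)
      (bad D B ((wt + 1 / 2 : ℝ) + w))⁻¹ := by
    have h3 := hasProd_prod_of_ne_finset_one (L := SummationFilter.unconditional P)
      (s := D.fin.toFinset)
      (f := fun p => if Good p then (1 : ℂ) else
        ((B p).eval (((N p : ℕ) : ℂ) ^ (-((wt + 1 / 2 : ℝ) + w))))⁻¹)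
      (fun p hp => by
        rw [Set.Finite.mem_toFinset, Set.mem_ofPred_eq, not_not] at hp
        exact if_pos hp)
    have h4 : ∏ p ∈ D.fin.toFinset, (if Good p then (1 : ℂ) else
        ((B p).eval (((N p : ℕ) : ℂ) ^ (-((wt + 1 / 2 : ℝ) + w))))⁻¹) =
        (bad D B ((wt + 1 / 2 : ℝ) + w))⁻¹ := by
      unfold bad
      rw [← Finset.prod_inv_distrib]
      refine Finset.prod_congr rfl fun p hp => ?_
      rw [Set.Finite.mem_toFinset, Set.mem_ofPred_eq] at hp
      exact if_neg hp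
    rwa [h4] at h3
  have h3 := h2.mul h1
  have h4 : (fun p => (if Good p then (1 : ℂ) else
      ((B p).eval (((N p : ℕ) : ℂ) ^ (-((wt + 1 / 2 : ℝ) + w))))⁻¹) *
      ∏ j, (1 - tt N wt α A Good p j * (((N p : ℝ) : ℝ) : ℂ) ^ (-w))⁻¹) =
      fun p => ((B p).eval (((N p : ℕ) : ℂ) ^ (-((wt + 1 / 2 : ℝ) + w))))⁻¹ := by
    funext p
    by_cases h : Good p
    · have hN0 : (0 : ℝ) < N p := by
        have := D.sys.two_le p
        have h3 : 0 < N p := by omega
        exact_mod_cast h3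
      rw [if_pos h, one_mul, hB p h, D.factor h, ← Finset.prod_inv_distrib]
      refine Finset.prod_congr rfl fun x _ => ?_
      congr 2
      unfold tt
      rw [if_pos h]
      have e1 : ((N p : ℕ) : ℂ) ^ (-((wt + 1 / 2 : ℝ) + w)) =
          (((N p : ℝ) ^ (-(wt + 1 / 2)) : ℝ) : ℂ) * (((N p : ℝ) : ℝ) : ℂ) ^ (-w) := by
        have hc : (((N p : ℝ) : ℝ) : ℂ) ≠ 0 := by exact_mod_cast hN0.ne'
        rw [neg_add, Complex.ofReal_cpow hN0.le, Complex.ofReal_natCast] at *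
        rw [Complex.cpow_add _ _ hc]
        congr 2
        push_cast
        ring
      rw [e1]
      ring
    · rw [if_neg h]
      have e1 : ∏ j, (1 - tt N wt α A Good p j * (((N p : ℝ) : ℝ) : ℂ) ^ (-w))⁻¹ = 1 := by
        refine Finset.prod_eq_one fun j _ => ?_
        unfold tt
        rw [if_neg h, zero_mul, sub_zero, inv_one]
      rw [e1, mul_one]
  rw [h4] at h3
  exact h3

/-- the product of `L` and the bad factors -/
noncomputable def LB (D : TD N wt α A Good) (B : P → ℂ[X]) (L : ℂ → ℂ) (w : ℂ) : ℂ :=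
  L ((wt + 1 / 2 : ℝ) + w) * bad D B ((wt + 1 / 2 : ℝ) + w)

/-- the function for the abstract theorem -/
noncomputable def PH (D : TD N wt α A Good) (B : P → ℂ[X]) (L : ℂ → ℂ) (w : ℂ) : ℂ :=
  if 1 < w.re then exp (cser (fr fun p => (N p : ℝ)) (tc N wt α A Good) w) else LB D B L w

theorem bad_ne (D : TD N wt α A Good) (B : P → ℂ[X])
    (hB0 : ∀ p, ¬ Good p → (B p).eval (((N p : ℕ) : ℂ) ^ (-((wt + 1 / 2 : ℝ) : ℂ))) ≠ 0) :
    bad D B ((wt + 1 / 2 : ℝ) : ℂ) ≠ 0 := by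
  unfold bad
  refine Finset.prod_ne_zero_iff.2 fun p hp => hB0 p ?_
  rwa [Set.Finite.mem_toFinset, Set.mem_ofPred_eq] at hp

/-- the bad factors have isolated zeros -/
theorem bad_isol (D : TD N wt α A Good) (B : P → ℂ[X])
    (hB0 : ∀ p, ¬ Good p → (B p).eval (((N p : ℕ) : ℂ) ^ (-((wt + 1 / 2 : ℝ) : ℂ))) ≠ 0)
    (w : ℂ) : ∀ᶠ z in 𝓝[≠] w, bad D B ((wt + 1 / 2 : ℝ) + z) ≠ 0 := by
  have hd : Differentiable ℂ fun z : ℂ => bad D B ((wt + 1 / 2 : ℝ) + z) :=
    (bad_diff D B).comp (by fun_prop)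
  rcases (hd.analyticAt w).eventually_eq_zero_or_eventually_ne_zero with h | h
  · exfalso
    have h1 : AnalyticOnNhd ℂ (fun z : ℂ => bad D B ((wt + 1 / 2 : ℝ) + z)) univ :=
      fun z _ => hd.analyticAt z
    have h2 := h1.eqOn_zero_of_preconnected_of_eventuallyEq_zero isPreconnected_univ
      (mem_univ w) h (mem_univ 0)
    simp only [add_zero, Pi.zero_apply] at h2
    exact bad_ne D B hB0 h2
  · exact h

section
variable (D : TD N wt α A Good) (B : P → ℂ[X])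
    (hB : ∀ p, Good p → ∀ z : ℂ, (B p).eval z = ∏ j, LinearMap.det (1 - (α p j * z) • A p))
    (hB0 : ∀ p, ¬ Good p → (B p).eval (((N p : ℕ) : ℂ) ^ (-((wt + 1 / 2 : ℝ) : ℂ))) ≠ 0)
    {L : ℂ → ℂ} {s₁ : ℝ} (hs₁ : s₁ ≤ wt + 3 / 2)
    (hmer : ∀ x : ℝ, wt + 1 / 2 ≤ x → x ≤ wt + 3 / 2 → MeromorphicAt L (x : ℂ))
    (hL : ∀ s : ℂ, s₁ < s.re → L s = ∏' p, ((B p).eval (((N p : ℕ) : ℂ) ^ (-s)))⁻¹)

include hB hB0 hL hs₁

theorem LB_right {w : ℂ} (hw : 1 < w.re) (hb : bad D B ((wt + 1 / 2 : ℝ) + w) ≠ 0) :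
    LB D B L w = exp (cser (fr fun p => (N p : ℝ)) (tc N wt α A Good) w) := by
  have h1 := (D.prod B hB hw).tprod_eq
  have h2 := hL ((wt + 1 / 2 : ℝ) + w) (by
    rw [Complex.add_re, Complex.ofReal_re]
    linarith)
  unfold LB
  rw [h2, h1, mul_comm, ← mul_assoc, mul_inv_cancel₀ hb, one_mul]

theorem PH_eventually (w : ℂ) :
    PH D B L =ᶠ[𝓝[≠] w] LB D B L := by
  filter_upwards [bad_isol D B hB0 w] with z hz
  unfold PH
  split_ifs with h
  · exact (LB_right D B hB hB0 hs₁ hL h hz).symm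
  · rfl

include hmer

theorem LB_mero {x : ℝ} (h0 : 0 ≤ x) (h1 : x ≤ 1) : MeromorphicAt (LB D B L) (x : ℂ) := by
  have h2 : MeromorphicAt L ((wt + 1 / 2 : ℝ) + (x : ℂ)) := by
    have := hmer (wt + 1 / 2 + x) (by linarith) (by linarith)
    push_cast at this ⊢
    exact this
  have h3 : MeromorphicAt (fun w => L ((wt + 1 / 2 : ℝ) + w)) (x : ℂ) :=
    h2.comp_analyticAt (g := fun w : ℂ => (wt + 1 / 2 : ℝ) + w) (by fun_prop)
  have hd : Differentiable ℂ fun z : ℂ => bad D B ((wt + 1 / 2 : ℝ) + z) :=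
    (bad_diff D B).comp (by fun_prop)
  exact h3.mul (hd.analyticAt _).meromorphicAt

/-- the data for the abstract theorem -/
theorem cm_PH : CM (fr fun p => (N p : ℝ)) (tc N wt α A Good) (PH D B L) where
  toCD := by
    have h := D.ed.cd
    rwa [show ec (tt N wt α A Good) = tc N wt α A Good from funext D.ec_eq] at h
  eq := fun w hw => if_pos hw
  mero := fun x hx => by
    have hcd : CD (fr fun p => (N p : ℝ)) (tc N wt α A Good) := by
      have h := D.ed.cd
      rwa [show ec (tt N wt α A Good) = tc N wt α A Good from funext D.ec_eq] at h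
    rcases lt_trichotomy x 1 with h | h | h
    · refine (LB_mero D B hB hB0 hs₁ hmer hL hx.1 h.le).congr ?_
      have hopen : IsOpen {z : ℂ | z.re < 1} := isOpen_lt Complex.continuous_re continuous_const
      have : {z : ℂ | z.re < 1} ∈ 𝓝[≠] (x : ℂ) :=
        nhdsWithin_le_nhds (hopen.mem_nhds (by simpa using h))
      filter_upwards [this] with z hz
      have hz' : z.re < 1 := hz
      unfold PH
      rw [if_neg (by linarith)]
    · refine (LB_mero D B hB hB0 hs₁ hmer hL hx.1 h.le).congr ?_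
      exact (PH_eventually D B hB hB0 hs₁ hL _).symm
    · have hopen : IsOpen {z : ℂ | 1 < z.re} := isOpen_lt continuous_const Complex.continuous_re
      have h1 : {z : ℂ | 1 < z.re} ∈ 𝓝[≠] (x : ℂ) :=
        nhdsWithin_le_nhds (hopen.mem_nhds (by simpa using h))
      refine ((hcd.ser_diff (w := (x : ℂ)) (by simpa using h)).cexp.meromorphicAt).congr ?_
      filter_upwards [h1] with z hz
      unfold PH
      rw [if_pos hz]
      rfl

/-- **the refined law for a twisted Euler product** -/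
theorem core_law [Countable P] :
    ∃ (m : ℤ) (r₀ : ℂ), meromorphicOrderAt L ((wt + 1 / 2 : ℝ) : ℂ) = m ∧
      exp r₀ = meromorphicTrailingCoeffAt L ((wt + 1 / 2 : ℝ) : ℂ) *
        bad D B ((wt + 1 / 2 : ℝ) : ℂ) ∧
      ∀ γ : ℝ, Real.pi / 2 < γ → ∃ C T₀ : ℝ, 0 ≤ C ∧ 1 ≤ T₀ ∧ ∀ T ≥ T₀,
        ‖cmn (fr fun p => (N p : ℝ)) (tc N wt α A Good) γ T -
          (r₀ - m * (Real.log T - kapc γ))‖ ≤ C / T := by
  have hcm := cm_PH D B hB hB0 hs₁ hmer hL
  have htop := hcm.order_ne_top (x := 0) ⟨le_rfl, by norm_num⟩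
  obtain ⟨m, hm⟩ := WithTop.ne_top_iff_exists.1 htop
  rw [Complex.ofReal_zero] at hm
  obtain ⟨r₀, hr₀, h⟩ := hcm.refined hm.symm
  -- near zero `PH = LB`
  have e0 := PH_eventually D B hB hB0 hs₁ hL 0
  have hd : Differentiable ℂ fun z : ℂ => bad D B ((wt + 1 / 2 : ℝ) + z) :=
    (bad_diff D B).comp (by fun_prop)
  have h2 : MeromorphicAt L ((wt + 1 / 2 : ℝ) : ℂ) := hmer _ le_rfl (by linarith)
  have hsh : (fun w : ℂ => L ((wt + 1 / 2 : ℝ) + w)) = L ∘ (· + ((wt + 1 / 2 : ℝ) : ℂ)) := by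
    funext w; simp [add_comm]
  have h3 : MeromorphicAt (fun w => L ((wt + 1 / 2 : ℝ) + w)) 0 := by
    refine MeromorphicAt.comp_analyticAt (f := L) (g := fun w : ℂ => (wt + 1 / 2 : ℝ) + w) ?_
      (by fun_prop)
    simpa using h2
  have hb0 := bad_ne D B hB0
  have hb1 : bad D B ((wt + 1 / 2 : ℝ) + 0) ≠ 0 := by rwa [add_zero]
  have hLB : LB D B L = fun w => L ((wt + 1 / 2 : ℝ) + w) * bad D B ((wt + 1 / 2 : ℝ) + w) := rfl
  have ho : meromorphicOrderAt (PH D B L) 0 = meromorphicOrderAt L ((wt + 1 / 2 : ℝ) : ℂ) := by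
    rw [meromorphicOrderAt_congr e0, hLB]
    have h4 : meromorphicOrderAt (fun w => L ((wt + 1 / 2 : ℝ) + w) *
        bad D B ((wt + 1 / 2 : ℝ) + w)) 0 =
        meromorphicOrderAt (fun w => L ((wt + 1 / 2 : ℝ) + w)) 0 +
        meromorphicOrderAt (fun w => bad D B ((wt + 1 / 2 : ℝ) + w)) 0 :=
      meromorphicOrderAt_mul h3 (hd.analyticAt 0).meromorphicAt
    rw [h4, (hd.analyticAt 0).meromorphicOrderAt_eq,
      (hd.analyticAt 0).analyticOrderAt_eq_zero.2 hb1, hsh,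
      meromorphicOrderAt_comp_add_const_eq_meromorphicOrderAt, zero_add]
    simp
  have ht : meromorphicTrailingCoeffAt (PH D B L) 0 =
      meromorphicTrailingCoeffAt L ((wt + 1 / 2 : ℝ) : ℂ) * bad D B ((wt + 1 / 2 : ℝ) : ℂ) := by
    rw [meromorphicTrailingCoeffAt_congr_nhdsNE e0, hLB,
      MeromorphicAt.meromorphicTrailingCoeffAt_fun_mul h3 (hd.analyticAt 0).meromorphicAt, hsh,
      meromorphicTrailingCoeffAt_comp_add_const_eq_meromorphicTrailingCoeffAt, zero_add,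
      (hd.analyticAt 0).meromorphicTrailingCoeffAt_of_ne_zero hb1, add_zero]
  exact ⟨m, r₀, by rw [← ho, ← hm], by rw [hr₀, ht], h⟩

end

end Pool.Agent.Q286.RL
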