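import Pool.Agent.Q286.RL.Mean
import Pool.Agent.W189.LC.Euler

/-! Euler products with arbitrary local eigenvalues. -/

set_option autoImplicit false
set_option linter.unusedSectionVars false

namespace Pool.Agent.Q286.RL

open Complex MeasureTheory Filter Topology Set
open Pool.Agent.W189.ML Pool.Agent.W189.LC

variable {P J : Type} [Fintype J] {q : P → ℝ} {th : P → J → ℂ}

/-- numerical data of an Euler product: norms `q v` and normalised eigenvalues `th v j` -/
structure ED {P J : Type} (q : P → ℝ) (th : P → J → ℂ) : Prop where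
  two_le : ∀ v, 2 ≤ q v
  sum : ∀ σ : ℝ, 1 < σ → Summable fun v => q v ^ (-σ)
  th_le : ∀ v j, ‖th v j‖ ≤ 3 / 2

/-- the coefficients `(∑_j θ_j^k)/k` -/
noncomputable def ec {P J : Type} [Fintype J] (th : P → J → ℂ) (x : P × ℕ) : ℂ :=
  (∑ j, th x.1 j ^ (x.2 + 1)) / ((x.2 + 1 : ℕ) : ℂ)

theorem norm_ec_le {b : ℝ} {v : P} (h : ∀ j, ‖th v j‖ ≤ b) (n : ℕ) :
    ‖ec th (v, n)‖ ≤ Fintype.card J * b ^ (n + 1) := by
  unfold ec
  rw [norm_div, Complex.norm_natCast]
  have h1 : ‖∑ j, th v j ^ (n + 1)‖ ≤ Fintype.card J * b ^ (n + 1) := by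
    refine (norm_sum_le _ _).trans ?_
    have : ∀ j ∈ (Finset.univ : Finset J), ‖th v j ^ (n + 1)‖ ≤ b ^ (n + 1) := fun j _ => by
      rw [norm_pow]
      exact pow_le_pow_left₀ (norm_nonneg _) (h j) _
    refine (Finset.sum_le_sum this).trans (le_of_eq ?_)
    simp
  refine (div_le_self (norm_nonneg _) ?_).trans h1
  exact_mod_cast Nat.succ_le_succ (Nat.zero_le n)

theorem ED.fr_nonneg (E : ED q th) (x : P × ℕ) : 0 ≤ fr q x := by
  unfold fr
  have := Real.log_nonneg (by linarith [E.two_le x.1] : 1 ≤ q x.1)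
  positivity

theorem ED.exp_fr (E : ED q th) (σ : ℝ) (x : P × ℕ) :
    Real.exp (-(σ * fr q x)) = (q x.1 ^ (-σ)) ^ (x.2 + 1) := by
  have hq0 : 0 < q x.1 := by linarith [E.two_le x.1]
  rw [← Real.rpow_natCast, ← Real.rpow_mul hq0.le, Real.rpow_def_of_pos hq0]
  unfold fr
  congr 1
  push_cast
  ring

theorem ED.rpow_le (E : ED q th) {σ : ℝ} (hσ : 1 ≤ σ) (v : P) : q v ^ (-σ) ≤ 1 / 2 := by
  have hq := E.two_le v
  calc q v ^ (-σ) ≤ q v ^ (-1 : ℝ) :=
        Real.rpow_le_rpow_of_exponent_le (by linarith) (by linarith)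
    _ = (q v)⁻¹ := Real.rpow_neg_one _
    _ ≤ 2⁻¹ := inv_anti₀ (by norm_num) hq
    _ = 1 / 2 := by norm_num

theorem ED.term_le (E : ED q th) {σ : ℝ} (hσ : 1 ≤ σ) (x : P × ℕ) :
    ‖ec th x‖ * Real.exp (-(σ * fr q x)) ≤ (Fintype.card J * (3 / 2)) * q x.1 ^ (-σ) * (3 / 4) ^ x.2 := by
  have hq0 : 0 < q x.1 := by linarith [E.two_le x.1]
  rw [E.exp_fr]
  set y := q x.1 ^ (-σ) with hy
  have hy0 : 0 ≤ y := by positivity
  have hy1 : y ≤ 1 / 2 := E.rpow_le hσ x.1
  calc ‖ec th x‖ * y ^ (x.2 + 1) ≤ (Fintype.card J * (3 / 2) ^ (x.2 + 1)) * y ^ (x.2 + 1) := by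
        gcongr
        exact norm_ec_le (E.th_le x.1) x.2
    _ = (Fintype.card J * (3 / 2)) * y * (3 / 2 * y) ^ x.2 := by
      rw [mul_pow, pow_succ, pow_succ]
      ring
    _ ≤ (Fintype.card J * (3 / 2)) * y * (3 / 4) ^ x.2 := by
      gcongr
      linarith

theorem ED.cd (E : ED q th) : CD (fr q) (ec th) := by
  refine ⟨E.fr_nonneg, fun σ hσ => ?_⟩
  have hg : Summable fun n : ℕ => (3 / 4 : ℝ) ^ n :=
    summable_geometric_of_lt_one (by norm_num) (by norm_num)
  have h1 := ((E.sum σ hσ).mul_left ((Fintype.card J : ℝ) * (3 / 2))).mul_of_nonneg hg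
    (fun v => by
      have : 0 < q v := by linarith [E.two_le v]
      show 0 ≤ (Fintype.card J : ℝ) * (3 / 2) * q v ^ (-σ)
      positivity) (fun n => by positivity)
  exact Summable.of_nonneg_of_le (fun x => by positivity) (fun x => E.term_le hσ.le x) h1

/-- the Euler factor at `v` in terms of the series -/
theorem ED.factor_sum (E : ED q th) {w : ℂ} (hw : 1 ≤ w.re) (v : P) :
    HasSum (fun n : ℕ => ec th (v, n) * exp (-(w * fr q (v, n))))
      (∑' n : ℕ, ec th (v, n) * exp (-(w * fr q (v, n)))) ∧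
    exp (∑' n : ℕ, ec th (v, n) * exp (-(w * fr q (v, n)))) =
      ∏ j, (1 - th v j * (q v : ℂ) ^ (-w))⁻¹ := by
  have hq := E.two_le v
  have hq0 : 0 < q v := by linarith
  set x : ℂ := (q v : ℂ) ^ (-w) with hx
  have hxn : ‖x‖ = q v ^ (-w.re) := by
    rw [hx, Complex.norm_cpow_eq_rpow_re_of_pos hq0]
    simp
  have hxle : ‖x‖ ≤ 1 / 2 := by
    rw [hxn]
    exact E.rpow_le hw v
  have hb : ∀ j, ‖th v j * x‖ < 1 := by
    intro j
    rw [norm_mul]
    calc ‖th v j‖ * ‖x‖ ≤ 3 / 2 * (1 / 2) := by gcongr; exact E.th_le v j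
      _ < 1 := by norm_num
  have hterm : ∀ n : ℕ, ec th (v, n) * exp (-(w * fr q (v, n))) =
      ∑ j, (th v j * x) ^ (n + 1) / ((n + 1 : ℕ) : ℂ) := by
    intro n
    have e1 : x ^ (n + 1) = exp (-(w * fr q (v, n))) := by
      have hqc : (q v : ℂ) ≠ 0 := by exact_mod_cast hq0.ne'
      rw [hx, Complex.cpow_def_of_ne_zero hqc, ← Complex.exp_nat_mul]
      congr 1
      unfold fr
      rw [← Complex.ofReal_log hq0.le]
      push_cast
      ring
    rw [← e1]
    unfold ec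
    rw [Finset.sum_div, Finset.sum_mul]
    refine Finset.sum_congr rfl fun j _ => ?_
    rw [mul_pow]
    ring
  have hs : ∀ z : ℂ, ‖z‖ < 1 →
      HasSum (fun n : ℕ => z ^ (n + 1) / ((n + 1 : ℕ) : ℂ)) (-log (1 - z)) := by
    intro z hz
    have := Complex.hasSum_taylorSeries_neg_log hz
    rw [← hasSum_nat_add_iff' 1] at this
    simpa using this
  have hS : HasSum (fun n : ℕ => ec th (v, n) * exp (-(w * fr q (v, n))))
      (∑ j, -log (1 - th v j * x)) := by
    simp only [hterm]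
    exact hasSum_sum fun j _ => hs _ (hb j)
  refine ⟨hS.summable.hasSum, ?_⟩
  rw [hS.tsum_eq, Complex.exp_sum]
  refine Finset.prod_congr rfl fun j _ => ?_
  have hne : 1 - th v j * x ≠ 0 := by
    intro h
    rw [sub_eq_zero] at h
    have := hb j
    rw [← h] at this
    simp at this
  rw [Complex.exp_neg, Complex.exp_log hne]

/-- the Euler product is the exponential of the series -/
theorem ED.hasProd (E : ED q th) {w : ℂ} (hw : 1 < w.re) :
    HasProd (fun v => ∏ j, (1 - th v j * (q v : ℂ) ^ (-w))⁻¹) (exp (cser (fr q) (ec th) w)) := by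
  have h1 : HasSum (fun x : P × ℕ => ec th x * exp (-(w * fr q x)))
      (cser (fr q) (ec th) w) := (E.cd.summable hw).hasSum
  have h2 := h1.prod_fiberwise (fun v => (E.factor_sum hw.le v).1)
  have h3 := h2.cexp
  have h4 : (Complex.exp ∘ fun v => ∑' n : ℕ, ec th (v, n) * exp (-(w * fr q (v, n)))) =
      fun v => ∏ j, (1 - th v j * (q v : ℂ) ^ (-w))⁻¹ := by
    funext v
    exact (E.factor_sum hw.le v).2
  rw [h4] at h3
  exact h3

/-- the data for the abstract theorem -/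
theorem ED.cm (E : ED q th) {F : ℂ → ℂ} (s₀ : ℝ)
    (hmer : ∀ x ∈ Icc s₀ (s₀ + 2), MeromorphicAt F (x : ℂ))
    (hF : ∀ w : ℂ, 1 < w.re →
      HasProd (fun v => ∏ j, (1 - th v j * (q v : ℂ) ^ (-w))⁻¹) (F (s₀ + w))) :
    CM (fr q) (ec th) (fun w => F (s₀ + w)) where
  toCD := E.cd
  mero := fun x hx => by
    have h1 : MeromorphicAt F (s₀ + (x : ℂ)) := by
      have := hmer (s₀ + x) ⟨by linarith [hx.1], by linarith [hx.2]⟩
      push_cast at this
      exact this
    exact h1.comp_analyticAt (g := fun w : ℂ => s₀ + w) (by fun_prop)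
  eq := fun w hw => (hF w hw).unique (E.hasProd hw)

end Pool.Agent.Q286.RL
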