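import Pool.Agent.Q286.RL.Core
import Pool.Agent.W353.L1.Complete

/-! The rotated law in the classes of a finite group: all the twists of an Euler product by the
irreducible representations of a finite group, for the places coloured by the elements of the group. -/

set_option autoImplicit false
set_option linter.unusedSectionVars false

namespace Pool.Agent.Q286.RL

open Complex MeasureTheory Filter Topology Set Polynomial
open Pool.Agent.W189.ML Pool.Agent.W189.LC
open Pool.Agent.W540.BE (NormSys)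
open scoped Classical

variable {Γ : Type} [Group Γ] [Finite Γ] {κ : Type} [Fintype κ] {n : κ → ℕ}

/-- a complete family of irreducible representations -/
structure Fam (r : ∀ k, Representation ℂ Γ (Fin (n k) → ℂ)) : Prop where
  irr : ∀ k, (r k).IsIrreducible
  ne : ∀ k l, k ≠ l → IsEmpty ((r k).Equiv (r l))
  sum : ∑ k, n k ^ 2 = Nat.card Γ

/-- the density of a class -/
noncomputable def cden (q : Γ) : ℝ := (Nat.card {x : Γ // IsConj q x} : ℝ) / Nat.card Γ

theorem char_conj {d : ℕ} (ρ : Representation ℂ Γ (Fin d → ℂ)) {x y : Γ} (h : IsConj x y) :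
    ρ.character x = ρ.character y := by
  obtain ⟨c, rfl⟩ := isConj_iff.1 h
  exact (Representation.char_conj ρ x c).symm

theorem Fam.indicator {r : ∀ k, Representation ℂ Γ (Fin (n k) → ℂ)} (h : Fam r) (q x : Γ) :
    (if IsConj x⁻¹ q then (1 : ℂ) else 0) =
      ∑ k, ((cden q : ℝ) : ℂ) * (r k).character q * (r k).character x := by
  set f : Γ → ℂ := fun x => if IsConj x⁻¹ q then (1 : ℂ) else 0 with hf
  have := Fintype.ofFinite Γ
  have hcl : ∀ a x, f (x * a * x⁻¹) = f a := by
    intro a x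
    have h1 : IsConj (x * a * x⁻¹)⁻¹ q ↔ IsConj a⁻¹ q := by
      have h2 : IsConj a⁻¹ (x * a * x⁻¹)⁻¹ := isConj_iff.2 ⟨x, by group⟩
      exact ⟨fun h => h2.trans h, fun h => h2.symm.trans h⟩
    rw [hf]
    by_cases h3 : IsConj a⁻¹ q
    · exact (if_pos (h1.2 h3)).trans (if_pos h3).symm
    · exact (if_neg (fun h4 => h3 (h1.1 h4))).trans (if_neg h3).symm
  have h1 := Pool.Agent.W353.L1.inversion Finset.univ r (fun k _ => h.irr k)
    (fun k _ l _ hkl => h.ne k l hkl) h.sum f hcl x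
  have hG : (Nat.card Γ : ℂ) ≠ 0 := by exact_mod_cast Nat.card_pos.ne'
  have h2 : ∀ k, ∑ y, f y⁻¹ * (r k).character y =
      (Nat.card {x : Γ // IsConj q x} : ℂ) * (r k).character q := by
    intro k
    have e1 : ∀ y, f y⁻¹ * (r k).character y = if IsConj q y then (r k).character q else 0 := by
      intro y
      simp only [hf, inv_inv]
      by_cases hy : IsConj y q
      · rw [if_pos hy, if_pos hy.symm, one_mul, char_conj (r k) hy]
      · rw [if_neg hy, if_neg (fun h => hy h.symm), zero_mul]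
    simp only [e1]
    rw [Finset.sum_ite, Finset.sum_const_zero, add_zero, Finset.sum_const, nsmul_eq_mul]
    congr 2
    rw [Nat.card_eq_fintype_card, Fintype.card_subtype]
  simp only [h2] at h1
  have h3 : f x = (Nat.card Γ : ℂ)⁻¹ * ((Nat.card Γ : ℂ) * f x) := by
    rw [← mul_assoc, inv_mul_cancel₀ hG, one_mul]
  change f x = ∑ k, ((cden q : ℝ) : ℂ) * (r k).character q * (r k).character x
  rw [h3, h1, Finset.mul_sum]
  refine Finset.sum_congr rfl fun k _ => ?_
  unfold cden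
  push_cast
  field_simp

/-- orthogonality -/
theorem Fam.lin_indep {r : ∀ k, Representation ℂ Γ (Fin (n k) → ℂ)} (h : Fam r) {c : κ → ℂ}
    (hc : ∀ q : Γ, ∑ k, c k * (r k).character q = 0) (k : κ) : c k = 0 := by
  have := Fintype.ofFinite Γ
  have hG : (Nat.card Γ : ℂ) ≠ 0 := by exact_mod_cast Nat.card_pos.ne'
  have h1 : ∑ q, (∑ l, c l * (r l).character q) * (r k).character q⁻¹ = 0 :=
    Finset.sum_eq_zero fun q _ => by rw [hc, zero_mul]
  have h2 : ∑ q, (∑ l, c l * (r l).character q) * (r k).character q⁻¹ =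
      ∑ l, c l * ∑ q, (r l).character q * (r k).character q⁻¹ := by
    simp only [Finset.sum_mul, Finset.mul_sum]
    rw [Finset.sum_comm]
    exact Finset.sum_congr rfl fun l _ => Finset.sum_congr rfl fun q _ => by ring
  rw [h2] at h1
  have h3 : ∀ l, c l * ∑ q, (r l).character q * (r k).character q⁻¹ =
      if l = k then c k * (Nat.card Γ : ℂ) else 0 := by
    intro l
    rw [Pool.Agent.W353.L1.ortho_fam Finset.univ r (fun k _ => h.irr k)
      (fun k _ l _ hkl => h.ne k l hkl) (Finset.mem_univ l) (Finset.mem_univ k)]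
    split_ifs with hl
    · rw [hl]
    · rw [mul_zero]
  simp only [h3, Finset.sum_ite_eq', Finset.mem_univ, if_true] at h1
  exact (mul_eq_zero.1 h1).resolve_right hG

variable {P : Type} {N : P → ℕ} {b : ℕ} {wt : ℝ} {α : P → Fin b → ℂ} {Good : P → Prop}
  {g : P → Γ}

/-- the coefficients of the class of `q` -/
noncomputable def tcl (N : P → ℕ) (wt : ℝ) (α : P → Fin b → ℂ) (Good : P → Prop) (g : P → Γ)
    (q : Γ) (x : P × ℕ) : ℂ :=
  if Good x.1 ∧ IsConj (g x.1 ^ (x.2 + 1)) q then (∑ j, α x.1 j ^ (x.2 + 1)) /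
    (((x.2 + 1 : ℕ) : ℂ) * (((N x.1 : ℝ) ^ ((x.2 + 1) * (wt + 1 / 2)) : ℝ) : ℂ)) else 0

/-- the operators -/
noncomputable def opr (g : P → Γ) {d : ℕ} (ρ : Representation ℂ Γ (Fin d → ℂ)) (p : P) :
    Module.End ℂ (Fin d → ℂ) := ρ (g p)⁻¹

theorem opr_pow (g : P → Γ) {d : ℕ} (ρ : Representation ℂ Γ (Fin d → ℂ)) (p : P) (k : ℕ) :
    opr g ρ p ^ k = ρ (g p ^ k)⁻¹ := by
  unfold opr
  rw [← map_pow, inv_pow]

theorem Fam.tcl_eq {r : ∀ k, Representation ℂ Γ (Fin (n k) → ℂ)} (h : Fam r) (q : Γ)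
    (x : P × ℕ) : tcl N wt α Good g q x = ∑ k, (((cden q : ℝ) : ℂ) * (r k).character q) *
      tc N wt α (opr g (r k)) Good x := by
  have h1 := h.indicator q (g x.1 ^ (x.2 + 1))⁻¹
  rw [inv_inv] at h1
  unfold tcl tc
  by_cases hG : Good x.1
  · simp only [hG, true_and, if_true, opr_pow]
    have h2 : ∀ k, LinearMap.trace ℂ _ ((r k) (g x.1 ^ (x.2 + 1))⁻¹) =
        (r k).character (g x.1 ^ (x.2 + 1))⁻¹ := fun k => rfl
    simp only [h2]
    have h3 : ∀ z : ℂ, (if IsConj (g x.1 ^ (x.2 + 1)) q then z else 0) =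
        (if IsConj (g x.1 ^ (x.2 + 1)) q then (1 : ℂ) else 0) * z := fun z => by
      split_ifs <;> simp
    rw [h3, h1, Finset.sum_mul]
    exact Finset.sum_congr rfl fun k _ => by ring
  · simp [hG]

/-- linearity of the mean -/
theorem cmn_lin {ι : Type} [Countable ι] {lam : ι → ℝ} {c : κ → ι → ℂ} (hc : ∀ k, CD lam (c k))
    (a : κ → ℂ) {γ T : ℝ} (hT : 1 ≤ T) :
    Summable (fun i => (∑ k, a k * c k i) * ker γ (lam i / T)) ∧
    cmn lam (fun i => ∑ k, a k * c k i) γ T = ∑ k, a k * cmn lam (c k) γ T := by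
  have h1 : ∀ k, HasSum (fun i => a k * (c k i * ker γ (lam i / T)))
      (a k * cmn lam (c k) γ T) := fun k => by
    have := (hc k).summable_cmn γ hT
    exact this.hasSum.mul_left (a k)
  have h2 := hasSum_sum (s := Finset.univ) fun k _ => h1 k
  have h3 : (fun i => ∑ k, a k * (c k i * ker γ (lam i / T))) =
      fun i => (∑ k, a k * c k i) * ker γ (lam i / T) := by
    funext i
    rw [Finset.sum_mul]
    exact Finset.sum_congr rfl fun k _ => by ring
  rw [h3] at h2
  exact ⟨h2.summable, h2.tsum_eq⟩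

/-- **The refined law in the classes of a finite group.** -/
theorem group_law [Countable P] {r : ∀ k, Representation ℂ Γ (Fin (n k) → ℂ)} (h : Fam r)
    (hN : NormSys N) (hfin : {p | ¬ Good p}.Finite)
    (ha : ∀ p, Good p → ∀ j, ‖α p j‖ = (N p : ℝ) ^ wt)
    (B : κ → P → ℂ[X]) (hB : ∀ k p, Good p → ∀ z : ℂ,
      (B k p).eval z = ∏ j, LinearMap.det (1 - (α p j * z) • r k (g p)⁻¹))
    (hB0 : ∀ k p, ¬ Good p → (B k p).eval (((N p : ℕ) : ℂ) ^ (-((wt + 1 / 2 : ℝ) : ℂ))) ≠ 0)
    {L : κ → ℂ → ℂ} {s₁ : ℝ} (hs₁ : s₁ ≤ wt + 3 / 2)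
    (hmer : ∀ k, ∀ x : ℝ, wt + 1 / 2 ≤ x → x ≤ wt + 3 / 2 → MeromorphicAt (L k) (x : ℂ))
    (hL : ∀ k, ∀ s : ℂ, s₁ < s.re → L k s = ∏' p, ((B k p).eval (((N p : ℕ) : ℂ) ^ (-s)))⁻¹) :
    ∃ (m : κ → ℤ) (r₀ : κ → ℂ),
      (∀ k, meromorphicOrderAt (L k) ((wt + 1 / 2 : ℝ) : ℂ) = m k) ∧
      (∀ k, exp (r₀ k) = meromorphicTrailingCoeffAt (L k) ((wt + 1 / 2 : ℝ) : ℂ) *
        ∏ p ∈ hfin.toFinset, (B k p).eval (((N p : ℕ) : ℂ) ^ (-((wt + 1 / 2 : ℝ) : ℂ)))) ∧
      (∀ q : Γ, ∀ γ T : ℝ, 1 ≤ T →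
        Summable fun x => tcl N wt α Good g q x * ker γ (fr (fun p => (N p : ℝ)) x / T)) ∧
      ∀ γ : ℝ, Real.pi / 2 < γ → ∃ C T₀ : ℝ, 0 ≤ C ∧ 1 ≤ T₀ ∧ ∀ T ≥ T₀, ∀ q : Γ,
        ‖cmn (fr fun p => (N p : ℝ)) (tcl N wt α Good g q) γ T -
          ((cden q : ℝ) : ℂ) * ((∑ k, (r k).character q * r₀ k) -
            (∑ k, (r k).character q * m k) * (Real.log T - kapc γ))‖ ≤ C / T := by
  have hD : ∀ k, TD N wt α (opr g (r k)) Good := fun k => by
    refine ⟨hN, hfin, ha, fun p _ => ⟨Nat.card Γ, Nat.card_pos, ?_⟩⟩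
    rw [opr_pow, pow_card_eq_one', inv_one, map_one]
  have hcore := fun k => core_law (hD k) (B k) (fun p hp z => hB k p hp z) (hB0 k) hs₁ (hmer k)
    (hL k)
  choose m r₀ hm hr hlaw using hcore
  have hcd : ∀ k, CD (fr fun p => (N p : ℝ)) (tc N wt α (opr g (r k)) Good) := fun k =>
    (cm_PH (hD k) (B k) (fun p hp z => hB k p hp z) (hB0 k) hs₁ (hmer k) (hL k)).toCD
  have htcl : ∀ q : Γ, tcl N wt α Good g q = fun x =>
      ∑ k, (((cden q : ℝ) : ℂ) * (r k).character q) * tc N wt α (opr g (r k)) Good x :=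
    fun q => funext fun x => h.tcl_eq q x
  refine ⟨m, r₀, hm, hr, fun q γ T hT => ?_, fun γ hγ => ?_⟩
  · have := (cmn_lin hcd (fun k => ((cden q : ℝ) : ℂ) * (r k).character q) (γ := γ) hT).1
    rw [htcl q]
    exact this
  · have hγ' := fun k => hlaw k γ hγ
    choose C T₀ hC hT₀ hlaw' using hγ'
    have hbd : ∀ q : Γ, ∀ k, ‖((cden q : ℝ) : ℂ) * (r k).character q‖ ≤ n k := by
      intro q k
      have h1 : ‖((cden q : ℝ) : ℂ)‖ ≤ 1 := by
        rw [Complex.norm_real, Real.norm_eq_abs]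
        unfold cden
        have hc0 : (0 : ℝ) < Nat.card Γ := by exact_mod_cast Nat.card_pos
        rw [abs_of_nonneg (by positivity), div_le_one hc0]
        have : Nat.card {x : Γ // IsConj q x} ≤ Nat.card Γ :=
          Nat.card_le_card_of_injective _ Subtype.val_injective
        exact_mod_cast this
      have h2 : ‖(r k).character q‖ ≤ n k := by
        have e1 := exists_eig (r k q) (m := Nat.card Γ) Nat.card_pos (by
          rw [← map_pow, pow_card_eq_one', map_one])
        rw [Module.finrank_fin_fun] at e1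
        obtain ⟨l, hl, -, hl2⟩ := e1
        have e2 : (r k).character q = ∑ i, l i := by
          have := hl2 1
          simp only [pow_one] at this
          exact this
        rw [e2]
        refine (norm_sum_le _ _).trans ?_
        simp [hl]
      rw [norm_mul]
      calc _ ≤ 1 * (n k : ℝ) := mul_le_mul h1 h2 (norm_nonneg _) zero_le_one
        _ = _ := one_mul _
    refine ⟨∑ k, n k * C k, 1 + ∑ k, T₀ k, Finset.sum_nonneg fun k _ =>
      mul_nonneg (Nat.cast_nonneg _) (hC k), ?_, fun T hT q => ?_⟩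
    · have : 0 ≤ ∑ k, T₀ k := Finset.sum_nonneg fun k _ => by linarith [hT₀ k]
      linarith
    · have hTk : ∀ k, T₀ k ≤ T := fun k => by
        have := Finset.single_le_sum (f := T₀) (s := Finset.univ)
          (fun k _ => by linarith [hT₀ k]) (Finset.mem_univ k)
        linarith
      have hT1 : 1 ≤ T := by
        have : 0 ≤ ∑ k, T₀ k := Finset.sum_nonneg fun k _ => by linarith [hT₀ k]
        linarith
      rw [htcl q, (cmn_lin hcd (fun k => ((cden q : ℝ) : ℂ) * (r k).character q) (γ := γ) hT1).2]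
      have e1 : ∑ k, ((cden q : ℝ) : ℂ) * (r k).character q *
          cmn (fr fun p => (N p : ℝ)) (tc N wt α (opr g (r k)) Good) γ T -
          ((cden q : ℝ) : ℂ) * ((∑ k, (r k).character q * r₀ k) -
            (∑ k, (r k).character q * m k) * (Real.log T - kapc γ)) =
          ∑ k, ((cden q : ℝ) : ℂ) * (r k).character q *
            (cmn (fr fun p => (N p : ℝ)) (tc N wt α (opr g (r k)) Good) γ T -
              (r₀ k - m k * (Real.log T - kapc γ))) := by
        generalize ((Real.log T : ℝ) : ℂ) - kapc γ = Z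
        simp only [mul_sub, Finset.sum_sub_distrib, Finset.mul_sum, Finset.sum_mul]
        congr 1
        congr 1
        · exact Finset.sum_congr rfl fun k _ => by ring
        · exact Finset.sum_congr rfl fun k _ => by ring
      rw [e1, Finset.sum_div]
      refine (norm_sum_le _ _).trans (Finset.sum_le_sum fun k _ => ?_)
      rw [norm_mul, mul_div_assoc]
      exact mul_le_mul (hbd q k) (hlaw' k T (hTk k)) (norm_nonneg _) (Nat.cast_nonneg _)

end Pool.Agent.Q286.RL
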